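import Mathlib

set_option autoImplicit false

open Set MeasureTheory Module Submodule Real
open scoped ENNReal Pointwise

namespace Pool.Agent.Helper11_Thin

/-- The Euclidean plane. -/
abbrev E2 := EuclideanSpace ℝ (Fin 2)

/-- Volume of the fundamental parallelogram of the basis `v, w`. -/
theorem exists_basis_vec (v w : E2) (h : v 0 * w 1 - v 1 * w 0 ≠ 0) :
    ∃ b : Basis (Fin 2) ℝ E2, b 0 = v ∧ b 1 = w ∧
      volume (ZSpan.fundamentalDomain b) = ENNReal.ofReal |v 0 * w 1 - v 1 * w 0| := by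
  classical
  set b₀ : Basis (Fin 2) ℝ E2 := (EuclideanSpace.basisFun (Fin 2) ℝ).toBasis with hb₀
  set u : Fin 2 → E2 := ![v, w] with hu
  have hdet : b₀.det u = v 0 * w 1 - v 1 * w 0 := by
    rw [Basis.det_apply, Matrix.det_fin_two]
    simp [Basis.toMatrix_apply, hb₀, hu]
    ring
  have hunit : IsUnit (b₀.det u) := by rw [hdet]; exact isUnit_iff_ne_zero.mpr h
  obtain ⟨hli, hsp⟩ := (Basis.is_basis_iff_det b₀).mpr hunit
  set b := Basis.mk hli hsp.ge with hb
  have hbv : (b : Fin 2 → E2) = u := Basis.coe_mk hli hsp.ge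
  refine ⟨b, by rw [hbv]; rfl, by rw [hbv]; rfl, ?_⟩
  rw [ZSpan.measure_fundamentalDomain b volume b₀, hbv, hdet]
  have h1 : volume (ZSpan.fundamentalDomain b₀) = 1 := by
    rw [measure_congr (ZSpan.fundamentalDomain_ae_parallelepiped b₀ volume), hb₀]
    simpa using (EuclideanSpace.basisFun (Fin 2) ℝ).volume_parallelepiped
  rw [h1, mul_one]

theorem mem_three {s : Set E2} (hc : Convex ℝ s) {p v w : E2} (hp : p ∈ s) (hv : p + v ∈ s)
    (hw : p + w ∈ s) {a b : ℝ} (ha : 0 ≤ a) (hb : 0 ≤ b) (hab : a + b ≤ 1) :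
    p + a • v + b • w ∈ s := by
  have h := hc.sum_mem (t := (Finset.univ : Finset (Fin 3))) (w := ![1 - a - b, a, b])
    (z := ![p, p + v, p + w]) (by
      intro i _
      fin_cases i
      · simp; linarith
      · simpa using ha
      · simpa using hb) (by simp [Fin.sum_univ_three]; ring) (by
      intro i _
      fin_cases i
      · simpa using hp
      · simpa using hv
      · simpa using hw)
  simp only [Fin.sum_univ_three, Matrix.cons_val_zero, Matrix.cons_val_one, Matrix.cons_val] at h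
  convert h using 1
  module

/-- A convex set containing `p`, `p + v`, `p + w` has area at least `|det (v, w)| / 4`. -/
theorem det_le_volume {s : Set E2} (hc : Convex ℝ s) {p v w : E2} (hp : p ∈ s) (hv : p + v ∈ s)
    (hw : p + w ∈ s) : ENNReal.ofReal (|v 0 * w 1 - v 1 * w 0| / 4) ≤ volume s := by
  by_cases h : v 0 * w 1 - v 1 * w 0 = 0
  · rw [h]; simp
  obtain ⟨b, hb0, hb1, hbv⟩ := exists_basis_vec v w h
  have hsub : (fun x => p + x) '' ((1 / 2 : ℝ) • ZSpan.fundamentalDomain b) ⊆ s := by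
    rintro _ ⟨_, ⟨x, hx, rfl⟩, rfl⟩
    rw [ZSpan.mem_fundamentalDomain] at hx
    have hx0 := hx 0
    have hx1 := hx 1
    set α := b.repr x 0
    set β := b.repr x 1
    have hxe : x = α • v + β • w := by
      conv_lhs => rw [← b.sum_repr x, Fin.sum_univ_two, hb0, hb1]
    have e : p + (1 / 2 : ℝ) • x = p + (α / 2) • v + (β / 2) • w := by
      rw [hxe]
      module
    simp only
    rw [e]
    exact mem_three hc hp hv hw (by linarith [hx0.1]) (by linarith [hx1.1])
      (by linarith [hx0.2, hx1.2])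
  calc ENNReal.ofReal (|v 0 * w 1 - v 1 * w 0| / 4)
      = volume ((1 / 2 : ℝ) • ZSpan.fundamentalDomain b) := by
        rw [Measure.addHaar_smul, hbv, finrank_euclideanSpace_fin,
          ← ENNReal.ofReal_mul (abs_nonneg _)]
        congr 1
        norm_num
        ring
    _ = volume ((fun x => p + x) '' ((1 / 2 : ℝ) • ZSpan.fundamentalDomain b)) := by
        rw [image_add_left, measure_preimage_add]
    _ ≤ volume s := measure_mono hsub

/-- A compact convex set of diameter `D` contains a segment of length `D` such that every point `x` of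
the set is at distance `h` from the segment with `h * D ≤ 4 * area`. -/
theorem exists_chord {s : Set E2} (hc : Convex ℝ s) (hk : IsCompact s) (hne : s.Nonempty) :
    ∃ p ∈ s, ∃ q ∈ s, dist p q = Metric.diam s ∧
      ∀ x ∈ s, ∃ y ∈ segment ℝ p q, dist x y * Metric.diam s ≤ 4 * (volume s).toReal := by
  obtain ⟨⟨p, q⟩, ⟨hp, hq⟩, hmax⟩ := (hk.prod hk).exists_isMaxOn (hne.prod hne)
    (f := fun z : E2 × E2 => dist z.1 z.2) (continuous_dist.continuousOn)
  have hpq : dist p q = Metric.diam s := by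
    refine le_antisymm (Metric.dist_le_diam_of_mem hk.isBounded hp hq) ?_
    refine Metric.diam_le_of_forall_dist_le dist_nonneg fun x hx y hy => ?_
    exact isMaxOn_iff.mp hmax (x, y) ⟨hx, hy⟩
  refine ⟨p, hp, q, hq, hpq, fun x hx => ?_⟩
  set v := q - p with hv
  set w := x - p with hw
  rcases eq_or_ne v 0 with hv0 | hv0
  · refine ⟨p, left_mem_segment ℝ p q, ?_⟩
    have : Metric.diam s = 0 := by rw [← hpq, dist_comm, dist_eq_norm, ← hv, hv0, norm_zero]
    rw [this, mul_zero]; positivity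
  have hvn : 0 < ‖v‖ := norm_pos_iff.mpr hv0
  have hD : Metric.diam s = ‖v‖ := by rw [← hpq, dist_comm, dist_eq_norm]
  set t := (inner ℝ w v) / ‖v‖ ^ 2 with ht
  have hxp : ‖w‖ ≤ ‖v‖ := by
    rw [hw, ← dist_eq_norm, ← hD]; exact Metric.dist_le_diam_of_mem hk.isBounded hx hp
  have hxq : ‖w - v‖ ≤ ‖v‖ := by
    have : w - v = x - q := by rw [hw, hv]; abel
    rw [this, ← dist_eq_norm, ← hD]; exact Metric.dist_le_diam_of_mem hk.isBounded hx hq
  have h1 : inner ℝ w v ≤ ‖v‖ ^ 2 := by
    have := real_inner_le_norm w v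
    nlinarith
  have h2 : 0 ≤ inner ℝ w v := by
    have h3 := real_inner_le_norm (v - w) v
    rw [inner_sub_left, real_inner_self_eq_norm_sq, norm_sub_rev v w] at h3
    nlinarith
  have ht0 : 0 ≤ t := by positivity
  have ht1 : t ≤ 1 := by rw [ht, div_le_one (by positivity)]; exact h1
  refine ⟨p + t • v, ?_, ?_⟩
  · rw [segment_eq_image']
    exact ⟨t, ⟨ht0, ht1⟩, rfl⟩
  · have hdet : dist x (p + t • v) * ‖v‖ = |v 0 * w 1 - v 1 * w 0| := by
      have e1 : x - (p + t • v) = w - t • v := by rw [hw]; abel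
      rw [dist_eq_norm, e1]
      have e2 : (‖w - t • v‖ * ‖v‖) ^ 2 = (v 0 * w 1 - v 1 * w 0) ^ 2 := by
        rw [mul_pow, norm_sub_sq_real, inner_smul_right, norm_smul, mul_pow, Real.norm_eq_abs,
          sq_abs]
        have e3 : t * ‖v‖ ^ 2 = inner ℝ w v := by rw [ht]; field_simp
        have e4 : (‖w‖ ^ 2 - 2 * (t * inner ℝ w v) + t ^ 2 * ‖v‖ ^ 2) * ‖v‖ ^ 2
            = ‖w‖ ^ 2 * ‖v‖ ^ 2 - (inner ℝ w v) ^ 2 := by
          rw [← e3]; ring
        rw [e4, EuclideanSpace.norm_sq_eq, EuclideanSpace.norm_sq_eq]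
        simp only [Fin.sum_univ_two, Real.norm_eq_abs, sq_abs, PiLp.inner_apply, RCLike.inner_apply,
          conj_trivial]
        ring
      rw [← abs_of_nonneg (show 0 ≤ ‖w - t • v‖ * ‖v‖ by positivity)]
      exact (sq_eq_sq_iff_abs_eq_abs _ _).mp e2
    rw [hD, hdet]
    have h5 := det_le_volume hc (p := p) (v := v) (w := w) hp (by rw [hv]; simpa using hq)
      (by rw [hw]; simpa using hx)
    have h6 := ENNReal.toReal_mono hk.measure_lt_top.ne h5
    rw [ENNReal.toReal_ofReal (by positivity)] at h6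
    linarith

end Pool.Agent.Helper11_Thin
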