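import Mathlib
import Pool.Agent.Helper11_Segments.Plane
import Pool.Agent.Helper11_Thin.Chord

set_option autoImplicit false

open Set MeasureTheory Real Filter Topology
open scoped ENNReal

namespace Pool.Agent.Helper11_Thin

/-- Moving the endpoints of a segment by less than `r` moves its points by less than `r`. -/
theorem segment_near {p q p' q' : E2} {r : ℝ} (hp : dist p' p < r) (hq : dist q' q < r) {x : E2}
    (hx : x ∈ segment ℝ p' q') : ∃ y ∈ segment ℝ p q, dist x y < r := by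
  obtain ⟨a, b, ha, hb, hab, rfl⟩ := hx
  refine ⟨a • p + b • q, ⟨a, b, ha, hb, hab, rfl⟩, ?_⟩
  rw [dist_eq_norm]
  have e : a • p' + b • q' - (a • p + b • q) = a • (p' - p) + b • (q' - q) := by
    rw [smul_sub, smul_sub]; abel
  rw [e]
  rw [dist_eq_norm] at hp hq
  calc ‖a • (p' - p) + b • (q' - q)‖ ≤ ‖a • (p' - p)‖ + ‖b • (q' - q)‖ := norm_add_le _ _
    _ = a * ‖p' - p‖ + b * ‖q' - q‖ := by
        rw [norm_smul, norm_smul, Real.norm_of_nonneg ha, Real.norm_of_nonneg hb]
    _ < r := by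
        rcases ha.eq_or_lt with h | h
        · have : b = 1 := by linarith
          rw [← h, this]; linarith
        · have h1 : a * ‖p' - p‖ < a * r := mul_lt_mul_of_pos_left hp h
          have h2 : b * ‖q' - q‖ ≤ b * r := mul_le_mul_of_nonneg_left hq.le hb
          have h3 : a * r + b * r = r := by rw [← add_mul, hab, one_mul]
          linarith

/-- No `k + 1` members of the family of segments are pairwise at distance more than `ε`. -/
def SepLe (F : Set (E2 × E2)) (ε : ℝ) (k : ℕ) : Prop :=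
  ∀ T : Finset (E2 × E2), (T : Set (E2 × E2)) ⊆ F →
    (T : Set (E2 × E2)).Pairwise (fun s t => ∀ x ∈ segment ℝ s.1 s.2, ∀ y ∈ segment ℝ t.1 t.2,
      ε < dist x y) → T.card ≤ k

theorem isCompact_segment' (p q : E2) : IsCompact (segment ℝ p q) := by
  rw [segment_eq_image']
  exact isCompact_Icc.image (by fun_prop)

/-- Compactness form of the segment theorem, ball centred at the origin. -/
theorem compact_origin (M : ℝ) (k : ℕ) (δ : ℝ) (hδ : 0 < δ) :
    ∃ ε > 0, ∀ F : Set (E2 × E2),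
      (∀ s ∈ F, ‖s.1‖ ≤ M ∧ ‖s.2‖ ≤ M ∧ dist s.1 s.2 ≤ 1) → SepLe F ε k →
      volume (⋃ s ∈ F, Metric.cthickening ε (segment ℝ s.1 s.2)) ≤ ENNReal.ofReal (k * π + δ) := by
  classical
  by_contra hcon
  push Not at hcon
  have hpos : ∀ n : ℕ, (0 : ℝ) < 1 / ((n : ℝ) + 1) := fun n => by positivity
  choose F hFb hFs hFv using fun n : ℕ => hcon (1 / ((n : ℝ) + 1)) (hpos n)
  set 𝒰 : Ultrafilter ℕ := hyperfilter ℕ with h𝒰
  have h𝒰t : (𝒰 : Filter ℕ) ≤ atTop := Nat.hyperfilter_le_atTop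
  have hεlim : Tendsto (fun n : ℕ => 1 / ((n : ℝ) + 1)) 𝒰 (𝓝 0) :=
    (tendsto_one_div_add_atTop_nhds_zero_nat (𝕜 := ℝ)).mono_left h𝒰t
  -- the limit family
  set G : Set (E2 × E2) := {s | ∀ r > 0, ∀ᶠ n in (𝒰 : Filter ℕ), ∃ s' ∈ F n, dist s' s < r} with hG
  set P : Set (E2 × E2) := {s | ‖s.1‖ ≤ M ∧ ‖s.2‖ ≤ M ∧ dist s.1 s.2 ≤ 1} with hP
  have hPc : IsCompact P := by
    have h1 : IsCompact (Metric.closedBall (0 : E2) M ×ˢ Metric.closedBall (0 : E2) M) :=
      (isCompact_closedBall _ _).prod (isCompact_closedBall _ _)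
    have h2 : IsClosed P := by
      refine IsClosed.inter ?_ (IsClosed.inter ?_ ?_)
      · exact isClosed_le (f := fun s : E2 × E2 => ‖s.1‖) (by fun_prop) continuous_const
      · exact isClosed_le (f := fun s : E2 × E2 => ‖s.2‖) (by fun_prop) continuous_const
      · exact isClosed_le (f := fun s : E2 × E2 => dist s.1 s.2) (by fun_prop) continuous_const
    refine h1.of_isClosed_subset h2 fun s hs => ⟨?_, ?_⟩
    · simpa using hs.1
    · simpa using hs.2.1
  have hGP : G ⊆ P := by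
    intro s hs
    by_contra hsP
    obtain ⟨r, hr, hball⟩ := Metric.isOpen_iff.mp hPc.isClosed.isOpen_compl s hsP
    obtain ⟨n, s', hs', hd⟩ := (hs r hr).exists
    exact hball hd (hFb n s' hs')
  have hGcl : IsClosed G := by
    rw [← isOpen_compl_iff, Metric.isOpen_iff]
    intro s hs
    simp only [hG, mem_compl_iff, mem_ofPred_eq, not_forall] at hs
    obtain ⟨r, hr, hn⟩ := hs
    refine ⟨r / 2, by positivity, fun s1 hs1 hs1G => hn ?_⟩
    filter_upwards [hs1G (r / 2) (by positivity)] with n hn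
    obtain ⟨s', hs', hd⟩ := hn
    refine ⟨s', hs', ?_⟩
    calc dist s' s ≤ dist s' s1 + dist s1 s := dist_triangle _ _ _
      _ < r / 2 + r / 2 := add_lt_add hd hs1
      _ = r := by ring
  have hGc : IsCompact G := hPc.of_isClosed_subset hGcl hGP
  -- no k+1 disjoint members
  have hGk : ∀ T : Finset (E2 × E2), ↑T ⊆ G →
      (T : Set (E2 × E2)).Pairwise
        (fun s t => Disjoint (segment ℝ s.1 s.2) (segment ℝ t.1 t.2)) → T.card ≤ k := by
    intro T hT hTd
    -- a common positive separation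
    have hsep : ∃ r > 0, ∀ s ∈ T, ∀ t ∈ T, s ≠ t → ∀ x ∈ segment ℝ s.1 s.2,
        ∀ y ∈ segment ℝ t.1 t.2, 3 * r < dist x y := by
      have h1 : ∀ s ∈ T, ∀ t ∈ T, ∀ᶠ r in 𝓝[>] (0 : ℝ), s ≠ t → ∀ x ∈ segment ℝ s.1 s.2,
          ∀ y ∈ segment ℝ t.1 t.2, 3 * r < dist x y := by
        intro s hs t ht
        by_cases hst : s = t
        · exact Eventually.of_forall fun r h => absurd hst h
        obtain ⟨ρ, hρ, hdist⟩ := Metric.exists_pos_forall_lt_edist (isCompact_segment' s.1 s.2)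
          (isCompact_segment' t.1 t.2).isClosed (hTd hs ht hst)
        have hρ' : (0 : ℝ) < ρ := by exact_mod_cast hρ
        have h2 : ∀ᶠ r : ℝ in 𝓝[>] (0 : ℝ), r < (ρ : ℝ) / 3 :=
          (eventually_lt_nhds (by positivity)).filter_mono nhdsWithin_le_nhds
        filter_upwards [h2] with r hr _ x hx y hy
        have h3 := hdist x hx y hy
        rw [edist_dist, ← ENNReal.ofReal_coe_nnreal, ENNReal.ofReal_lt_ofReal_iff_of_nonneg hρ'.le] at h3
        linarith
      have h2 : ∀ᶠ r in 𝓝[>] (0 : ℝ), ∀ s ∈ T, ∀ t ∈ T, s ≠ t → ∀ x ∈ segment ℝ s.1 s.2,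
          ∀ y ∈ segment ℝ t.1 t.2, 3 * r < dist x y := by
        rw [Filter.eventually_all_finset]
        intro s hs
        rw [Filter.eventually_all_finset]
        exact fun t ht => h1 s hs t ht
      obtain ⟨r, hr, hr0⟩ := (h2.and self_mem_nhdsWithin).exists
      exact ⟨r, hr0, hr⟩
    obtain ⟨r, hr, hsep⟩ := hsep
    have h3 : ∀ᶠ n in (𝒰 : Filter ℕ), ∀ s ∈ T, ∃ s' ∈ F n, dist s' s < r := by
      rw [Filter.eventually_all_finset]
      exact fun s hs => hT hs r hr
    have h4 : ∀ᶠ n : ℕ in (𝒰 : Filter ℕ), 1 / ((n : ℝ) + 1) < r := hεlim.eventually_lt_const hr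
    obtain ⟨n, hn1, hn2⟩ := (h3.and h4).exists
    choose! φ hφF hφd using hn1
    have hfar : ∀ s ∈ T, ∀ t ∈ T, s ≠ t → ∀ x ∈ segment ℝ (φ s).1 (φ s).2,
        ∀ y ∈ segment ℝ (φ t).1 (φ t).2, 1 / ((n : ℝ) + 1) < dist x y := by
      intro s hs t ht hst x hx y hy
      have hds := hφd s hs
      have hdt := hφd t ht
      rw [Prod.dist_eq, max_lt_iff] at hds hdt
      obtain ⟨x', hx', hxx⟩ := segment_near hds.1 hds.2 hx
      obtain ⟨y', hy', hyy⟩ := segment_near hdt.1 hdt.2 hy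
      have h5 := hsep s hs t ht hst x' hx' y' hy'
      have h6 : dist x' y' ≤ dist x' x + dist x y + dist y y' := dist_triangle4 _ _ _ _
      rw [dist_comm x' x] at h6
      linarith
    have hinj : InjOn φ (T : Set (E2 × E2)) := by
      intro s hs t ht h
      by_contra hst
      have h7 := hfar s hs t ht hst (φ s).1 (left_mem_segment ℝ _ _) (φ t).1
        (left_mem_segment ℝ _ _)
      rw [h, dist_self] at h7
      exact absurd h7 (not_lt.mpr (hpos n).le)
    have h8 := hFs n (T.image φ) (by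
      intro y hy
      simp only [Finset.coe_image, mem_image, Finset.mem_coe] at hy
      obtain ⟨s, hs, rfl⟩ := hy
      exact hφF s hs) (by
      intro y hy z hz hyz
      simp only [Finset.coe_image, mem_image, Finset.mem_coe] at hy hz
      obtain ⟨s, hs, rfl⟩ := hy
      obtain ⟨t, ht, rfl⟩ := hz
      exact hfar s hs t ht (fun h => hyz (by rw [h])))
    rwa [Finset.card_image_of_injOn hinj] at h8
  have hGv := Helper11_Segments.volume_union_segments 1 k G (fun s hs => (hGP hs).2.2) hGk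
  rw [one_pow, mul_one] at hGv
  set U : Set E2 := ⋃ s ∈ G, segment ℝ s.1 s.2 with hU
  have hUc : IsCompact U := by
    have h1 : U = (fun z : (E2 × E2) × ℝ => z.1.1 + z.2 • (z.1.2 - z.1.1)) ''
        (G ×ˢ Icc (0 : ℝ) 1) := by
      ext x
      simp only [hU, mem_iUnion, segment_eq_image', mem_image, exists_prop, Prod.exists, mem_prod]
      constructor
      · rintro ⟨s1, s2, hs, θ, hθ, rfl⟩
        exact ⟨s1, s2, θ, ⟨hs, hθ⟩, rfl⟩
      · rintro ⟨s1, s2, θ, ⟨hs, hθ⟩, rfl⟩
        exact ⟨s1, s2, hs, θ, hθ, rfl⟩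
    rw [h1]
    exact (hGc.prod isCompact_Icc).image (by fun_prop)
  -- choose a small thickening of `U`
  have hlt : volume U < ENNReal.ofReal (k * π + δ) := by
    refine hGv.trans_lt ?_
    rw [ENNReal.ofReal_lt_ofReal_iff (by positivity)]
    linarith
  have ht := tendsto_measure_cthickening_of_isCompact (μ := (volume : Measure E2)) hUc
  have hev : ∀ᶠ r in 𝓝[>] (0 : ℝ), volume (Metric.cthickening r U) < ENNReal.ofReal (k * π + δ) :=
    (ht.eventually_lt_const hlt).filter_mono nhdsWithin_le_nhds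
  obtain ⟨r, hr, hr0⟩ := (hev.and self_mem_nhdsWithin).exists
  have hr0' : (0 : ℝ) < r := hr0
  -- eventually the thickened unions are inside the thickening of `U`
  have hin : ∀ᶠ n : ℕ in (𝒰 : Filter ℕ), (⋃ s ∈ F n, Metric.cthickening (1 / ((n : ℝ) + 1))
      (segment ℝ s.1 s.2)) ⊆ Metric.cthickening r U := by
    by_contra hcon
    rw [← Ultrafilter.eventually_not] at hcon
    have hch : ∀ᶠ n : ℕ in (𝒰 : Filter ℕ), ∃ s : E2 × E2, s ∈ F n ∧
        ∃ x ∈ Metric.cthickening (1 / ((n : ℝ) + 1)) (segment ℝ s.1 s.2),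
          x ∉ Metric.cthickening r U := by
      filter_upwards [hcon] with n hn
      rw [not_subset] at hn
      obtain ⟨x, hx, hxn⟩ := hn
      simp only [mem_iUnion] at hx
      obtain ⟨s, hs, hxs⟩ := hx
      exact ⟨s, hs, x, hxs, hxn⟩
    obtain ⟨s, hs⟩ := hch.choice
    have hsP : ∀ᶠ n : ℕ in (𝒰 : Filter ℕ), s n ∈ P := by
      filter_upwards [hs] with n hn
      exact hFb n _ hn.1
    obtain ⟨s', hs'P, hs'⟩ := hPc.ultrafilter_le_nhds (𝒰.map s)
      (by rw [le_principal_iff]; exact hsP)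
    have hs't : Tendsto s 𝒰 (𝓝 s') := hs'
    have hs'G : s' ∈ G := by
      intro ρ hρ
      have h1 : ∀ᶠ n : ℕ in (𝒰 : Filter ℕ), dist (s n) s' < ρ :=
        hs't.eventually (Metric.ball_mem_nhds s' hρ)
      filter_upwards [h1, hs] with n h1 h2
      exact ⟨s n, h2.1, h1⟩
    have h1 : ∀ᶠ n : ℕ in (𝒰 : Filter ℕ), dist (s n) s' < r / 2 :=
      hs't.eventually (Metric.ball_mem_nhds s' (by positivity))
    have h2 : ∀ᶠ n : ℕ in (𝒰 : Filter ℕ), 1 / ((n : ℝ) + 1) < r / 2 :=
      hεlim.eventually_lt_const (by positivity)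
    obtain ⟨n, hn1, hn2, hn3⟩ := (h1.and (h2.and hs)).exists
    obtain ⟨-, x, hx, hxn⟩ := hn3
    apply hxn
    rw [(isCompact_segment' (s n).1 (s n).2).cthickening_eq_biUnion_closedBall (hpos n).le] at hx
    simp only [mem_iUnion, Metric.mem_closedBall] at hx
    obtain ⟨y, hy, hxy⟩ := hx
    rw [Prod.dist_eq, max_lt_iff] at hn1
    obtain ⟨z, hz, hyz⟩ := segment_near hn1.1 hn1.2 hy
    have hzU : z ∈ U := by
      simp only [hU, mem_iUnion]
      exact ⟨s', hs'G, hz⟩
    refine Metric.mem_cthickening_of_dist_le x z r U hzU ?_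
    calc dist x z ≤ dist x y + dist y z := dist_triangle _ _ _
      _ ≤ r / 2 + r / 2 := add_le_add (hxy.trans hn2.le) hyz.le
      _ = r := by ring
  obtain ⟨n, hn⟩ := hin.exists
  exact absurd (measure_mono hn) (not_le.mpr (hr.trans (hFv n)))

end Pool.Agent.Helper11_Thin
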