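import Mathlib
import Pool.Agent.Helper11_Thin.Compact

set_option autoImplicit false

open Set MeasureTheory Real Filter Topology
open scoped ENNReal

namespace Pool.Agent.Helper11_Thin

/-- Compactness form of the segment theorem, arbitrary ball. -/
theorem compact_center (M : ℝ) (k : ℕ) (δ : ℝ) (hδ : 0 < δ) :
    ∃ ε > 0, ∀ (c : E2) (F : Set (E2 × E2)),
      (∀ s ∈ F, dist s.1 c ≤ M ∧ dist s.2 c ≤ M ∧ dist s.1 s.2 ≤ 1) → SepLe F ε k →
      volume (⋃ s ∈ F, Metric.cthickening ε (segment ℝ s.1 s.2)) ≤ ENNReal.ofReal (k * π + δ) := by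
  classical
  obtain ⟨ε, hε, h⟩ := compact_origin M k δ hδ
  refine ⟨ε, hε, fun c F hF hS => ?_⟩
  set G : Set (E2 × E2) := (fun s : E2 × E2 => (s.1 - c, s.2 - c)) '' F with hG
  have hseg : ∀ (p q x : E2), x ∈ segment ℝ (p - c) (q - c) → x + c ∈ segment ℝ p q := by
    intro p q x hx
    obtain ⟨a, b, ha, hb, hab, rfl⟩ := hx
    refine ⟨a, b, ha, hb, hab, ?_⟩
    have : a • (p - c) + b • (q - c) + c = a • p + b • q + (c - (a + b) • c) := by module
    rw [this, hab, one_smul, sub_self, add_zero]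
  have hseg' : ∀ (p q x : E2), x ∈ segment ℝ p q → x - c ∈ segment ℝ (p - c) (q - c) := by
    intro p q x hx
    obtain ⟨a, b, ha, hb, hab, rfl⟩ := hx
    refine ⟨a, b, ha, hb, hab, ?_⟩
    have : a • (p - c) + b • (q - c) = a • p + b • q - (a + b) • c := by module
    rw [this, hab, one_smul]
  have hGb : ∀ s ∈ G, ‖s.1‖ ≤ M ∧ ‖s.2‖ ≤ M ∧ dist s.1 s.2 ≤ 1 := by
    rintro _ ⟨s, hs, rfl⟩
    obtain ⟨h1, h2, h3⟩ := hF s hs
    refine ⟨by simpa [dist_eq_norm] using h1, by simpa [dist_eq_norm] using h2, ?_⟩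
    simpa using h3
  have hGS : SepLe G ε k := by
    intro T hT hTs
    have hinj : Function.Injective (fun s : E2 × E2 => (s.1 + c, s.2 + c)) := by
      intro s t hst
      simp only [Prod.mk.injEq, add_left_inj] at hst
      exact Prod.ext hst.1 hst.2
    have := hS (T.image (fun s : E2 × E2 => (s.1 + c, s.2 + c))) (by
      intro y hy
      simp only [Finset.coe_image, mem_image, Finset.mem_coe] at hy
      obtain ⟨s, hs, rfl⟩ := hy
      obtain ⟨t, ht, rfl⟩ := hT hs
      simpa using ht) (by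
      intro y hy z hz hyz
      simp only [Finset.coe_image, mem_image, Finset.mem_coe] at hy hz
      obtain ⟨s, hs, rfl⟩ := hy
      obtain ⟨t, ht, rfl⟩ := hz
      intro x hx w hw
      have h1 := hTs hs ht (fun h => hyz (by rw [h])) (x - c)
        (by simpa using hseg' _ _ x hx) (w - c) (by simpa using hseg' _ _ w hw)
      simpa using h1)
    rwa [Finset.card_image_of_injective _ hinj] at this
  have hv := h G hGb hGS
  have hsub : (⋃ s ∈ F, Metric.cthickening ε (segment ℝ s.1 s.2)) ⊆
      (fun x => x - c) ⁻¹' (⋃ s ∈ G, Metric.cthickening ε (segment ℝ s.1 s.2)) := by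
    intro x hx
    simp only [mem_iUnion] at hx
    obtain ⟨s, hs, hxs⟩ := hx
    simp only [mem_preimage, mem_iUnion]
    refine ⟨(s.1 - c, s.2 - c), ⟨s, hs, rfl⟩, ?_⟩
    rw [(isCompact_segment' s.1 s.2).cthickening_eq_biUnion_closedBall hε.le] at hxs
    simp only [mem_iUnion, Metric.mem_closedBall] at hxs
    obtain ⟨y, hy, hxy⟩ := hxs
    exact Metric.mem_cthickening_of_dist_le (x - c) (y - c) ε _ (hseg' _ _ y hy) (by simpa using hxy)
  refine (measure_mono hsub).trans ?_
  simp only [sub_eq_add_neg]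
  rw [measure_preimage_add_right]
  exact hv

/-- The members indexed by `S` have pairwise disjoint interiors. -/
def Indep {n : ℕ} (K : Fin n → Set E2) (S : Finset (Fin n)) : Prop :=
  (S : Set (Fin n)).Pairwise (fun i j => Disjoint (interior (K i)) (interior (K j)))

open Classical in
/-- The maximal number of members indexed in `J` with pairwise disjoint interiors. -/
noncomputable def nu {n : ℕ} (K : Fin n → Set E2) (J : Finset (Fin n)) : ℕ :=
  (J.powerset.filter (fun S => Indep K S)).sup Finset.card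

theorem card_le_nu {n : ℕ} {K : Fin n → Set E2} {J S : Finset (Fin n)} (h : S ⊆ J)
    (hS : Indep K S) : S.card ≤ nu K J := by
  classical
  unfold nu
  exact Finset.le_sup (f := Finset.card) (by simp [h, hS])

theorem exists_nu {n : ℕ} (K : Fin n → Set E2) (J : Finset (Fin n)) :
    ∃ S ⊆ J, Indep K S ∧ S.card = nu K J := by
  classical
  unfold nu
  have hne : (J.powerset.filter (fun S => Indep K S)).Nonempty :=
    ⟨∅, Finset.mem_filter.mpr ⟨Finset.empty_mem_powerset _, by simp [Indep]⟩⟩
  obtain ⟨S, hS, h⟩ := Finset.exists_mem_eq_sup _ hne Finset.card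
  simp only [Finset.mem_filter, Finset.mem_powerset] at hS
  exact ⟨S, hS.1, hS.2, h.symm⟩

theorem cell (M δ : ℝ) (hδ : 0 < δ) :
    ∃ η > 0, ∀ (n : ℕ) (K : Fin n → Set E2) (J : Finset (Fin n)) (c : E2),
      (∀ i ∈ J, Convex ℝ (K i) ∧ IsCompact (K i) ∧ (K i).Nonempty ∧ Metric.diam (K i) = 1 ∧
        volume (K i) ≤ ENNReal.ofReal η ∧ K i ⊆ Metric.closedBall c M) →
      volume (⋃ i ∈ J, K i) ≤ ENNReal.ofReal ((π + δ) * nu K J) := by
  classical
  obtain ⟨k0, hk0⟩ : ∃ k0 : ℕ, volume (Metric.closedBall (0 : E2) M) ≤ ENNReal.ofReal (k0 * π) := by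
    obtain ⟨k0, hk0⟩ := exists_nat_ge ((volume (Metric.closedBall (0 : E2) M)).toReal / π)
    refine ⟨k0, ?_⟩
    rw [div_le_iff₀ pi_pos] at hk0
    rw [← ENNReal.ofReal_toReal (a := volume (Metric.closedBall (0 : E2) M))
      measure_closedBall_lt_top.ne]
    exact ENNReal.ofReal_le_ofReal hk0
  choose ε hε hεF using fun k : ℕ => compact_center M k δ hδ
  have hne : (Finset.range (k0 + 1)).Nonempty := ⟨0, by simp⟩
  set e := (Finset.range (k0 + 1)).inf' hne ε with he
  have he0 : 0 < e := by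
    rw [he, Finset.lt_inf'_iff]
    exact fun k _ => hε k
  refine ⟨e / 16, by positivity, fun n K J c hK => ?_⟩
  set k := nu K J with hk
  have hsmall : J.Nonempty → 1 ≤ k := by
    rintro ⟨i, hi⟩
    have := card_le_nu (K := K) (J := J) (S := {i}) (by simpa using hi) (by simp [Indep])
    simpa using this
  rcases J.eq_empty_or_nonempty with hJ | hJ
  · simp [hJ]
  have hk1 := hsmall hJ
  by_cases hkk : k0 < k
  · have h1 : (⋃ i ∈ J, K i) ⊆ Metric.closedBall c M := iUnion₂_subset fun i hi => (hK i hi).2.2.2.2.2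
    calc volume (⋃ i ∈ J, K i) ≤ volume (Metric.closedBall c M) := measure_mono h1
      _ = volume (Metric.closedBall (0 : E2) M) := by
          rw [Measure.addHaar_closedBall_center]
      _ ≤ ENNReal.ofReal (k0 * π) := hk0
      _ ≤ ENNReal.ofReal ((π + δ) * k) := by
          refine ENNReal.ofReal_le_ofReal ?_
          have : (k0 : ℝ) ≤ k := by exact_mod_cast hkk.le
          nlinarith [pi_pos]
  · push Not at hkk
    have hee : e ≤ ε k := Finset.inf'_le _ (by simp; omega)
    have hch : ∀ i ∈ J, ∃ s : E2 × E2, s.1 ∈ K i ∧ s.2 ∈ K i ∧ dist s.1 s.2 = 1 ∧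
        ∀ x ∈ K i, ∃ y ∈ segment ℝ s.1 s.2, dist x y ≤ e / 4 := by
      intro i hi
      obtain ⟨hc, hcp, hnei, hdi, hvi, -⟩ := hK i hi
      obtain ⟨p, hp, q, hq, hpq, hx⟩ := exists_chord hc hcp hnei
      refine ⟨(p, q), hp, hq, by rw [hpq, hdi], fun x hxK => ?_⟩
      obtain ⟨y, hy, hxy⟩ := hx x hxK
      refine ⟨y, hy, ?_⟩
      rw [hdi, mul_one] at hxy
      have : (volume (K i)).toReal ≤ e / 16 := by
        have := ENNReal.toReal_mono (by simp) hvi
        rwa [ENNReal.toReal_ofReal (by positivity)] at this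
      linarith
    have : Nonempty (Fin n) := ⟨hJ.choose⟩
    choose! s hs1 hs2 hs3 hs4 using hch
    have hvol := hεF k c (s '' (J : Set (Fin n))) (by
      rintro _ ⟨i, hi, rfl⟩
      have h1 := (hK i hi).2.2.2.2.2
      exact ⟨h1 (hs1 i hi), h1 (hs2 i hi), (hs3 i hi).le⟩) (by
      intro T hT hTs
      have hch2 : ∀ t ∈ T, ∃ i ∈ J, s i = t := fun t ht => hT ht
      choose! φ hφJ hφs using hch2
      have hinj : InjOn φ (T : Set (E2 × E2)) := by
        intro a ha b hb hab
        rw [← hφs a ha, ← hφs b hb, hab]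
      have hle := card_le_nu (K := K) (J := J) (S := T.image φ) (by
        intro y hy
        simp only [Finset.mem_image] at hy
        obtain ⟨t, ht, rfl⟩ := hy
        exact hφJ t ht) (by
        intro y hy z hz hyz
        simp only [Finset.coe_image, mem_image, Finset.mem_coe] at hy hz
        obtain ⟨a, ha, rfl⟩ := hy
        obtain ⟨b, hb, rfl⟩ := hz
        have hab : a ≠ b := fun h => hyz (by rw [h])
        have hsep := hTs ha hb hab
        rw [Set.disjoint_left]
        intro x hx hx'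
        obtain ⟨y, hy, hxy⟩ := hs4 _ (hφJ a ha) x (interior_subset hx)
        obtain ⟨z, hz, hxz⟩ := hs4 _ (hφJ b hb) x (interior_subset hx')
        rw [hφs a ha] at hy
        rw [hφs b hb] at hz
        have h1 := hsep y hy z hz
        have h2 : dist y z ≤ dist x y + dist x z := by
          have := dist_triangle y x z
          rwa [dist_comm y x] at this
        linarith)
      rwa [Finset.card_image_of_injOn hinj] at hle)
    have hsub : (⋃ i ∈ J, K i) ⊆
        ⋃ t ∈ s '' (J : Set (Fin n)), Metric.cthickening (ε k) (segment ℝ t.1 t.2) := by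
      intro x hx
      simp only [mem_iUnion] at hx
      obtain ⟨i, hi, hxi⟩ := hx
      obtain ⟨y, hy, hxy⟩ := hs4 i hi x hxi
      simp only [mem_iUnion]
      refine ⟨s i, ⟨i, hi, rfl⟩, ?_⟩
      exact Metric.mem_cthickening_of_dist_le x y _ _ hy (by linarith)
    calc volume (⋃ i ∈ J, K i) ≤ _ := measure_mono hsub
      _ ≤ ENNReal.ofReal (k * π + δ) := hvol
      _ ≤ ENNReal.ofReal ((π + δ) * k) := by
          refine ENNReal.ofReal_le_ofReal ?_
          have : (1 : ℝ) ≤ k := by exact_mod_cast hk1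
          nlinarith

end Pool.Agent.Helper11_Thin
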