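import Mathlib
import Pool.Agent.Helper11_Thin.Cell

set_option autoImplicit false

open Set MeasureTheory Real Filter Topology
open scoped ENNReal

namespace Pool.Agent.Helper11_Thin

/-- The cell (of the grid of mesh `M` shifted by `j`) containing `x`. -/
noncomputable def cid (M j : ℕ) (x : E2) : ℤ × ℤ := (⌊(x 0 - j) / M⌋, ⌊(x 1 - j) / M⌋)

theorem bad_coord (M : ℕ) (hM : 0 < M) (K : Set E2) (hb : Bornology.IsBounded K)
    (hd : Metric.diam K ≤ 1) (e : Fin 2) (j j' : ℕ) (hj : j < M) (hj' : j' < M)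
    (x y x' y' : E2) (hx : x ∈ K) (hy : y ∈ K) (hx' : x' ∈ K) (hy' : y' ∈ K)
    (h : ⌊(x e - j) / (M : ℝ)⌋ < ⌊(y e - j) / (M : ℝ)⌋)
    (h' : ⌊(x' e - j') / (M : ℝ)⌋ < ⌊(y' e - j') / (M : ℝ)⌋) : j = j' := by
  have hM' : (0 : ℝ) < M := by exact_mod_cast hM
  have hdist : ∀ u ∈ K, ∀ v ∈ K, u e - v e ≤ 1 := by
    intro u hu v hv
    have h1 := Metric.dist_le_diam_of_mem hb hu hv
    have h2 : |u e - v e| ≤ dist u v := by
      rw [dist_eq_norm]
      have := PiLp.norm_apply_le (u - v) e
      simpa using this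
    exact (le_abs_self _).trans (h2.trans (h1.trans hd))
  have key : ∀ (x y : E2) (j : ℕ), ⌊(x e - j) / (M : ℝ)⌋ < ⌊(y e - j) / (M : ℝ)⌋ →
      ∃ z : ℤ, x e < (j : ℝ) + M * z ∧ (j : ℝ) + M * z ≤ y e := by
    intro x y j h
    refine ⟨⌊(y e - j) / (M : ℝ)⌋, ?_, ?_⟩
    · have h1 := Int.floor_lt.mp h
      rw [div_lt_iff₀ hM'] at h1
      linarith
    · have h1 := Int.floor_le ((y e - j) / (M : ℝ))
      rw [le_div_iff₀ hM'] at h1
      linarith
  obtain ⟨z, hz1, hz2⟩ := key x y j h
  obtain ⟨z', hz1', hz2'⟩ := key x' y' j' h'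
  have e1 := hdist y hy x' hx'
  have e2 := hdist y' hy' x hx
  -- both integers lie in a half-open interval of length at most one
  have h3 : ((j : ℤ) + M * z) = (j' : ℤ) + M * z' := by
    have l1 : ((j : ℝ) + M * z) < ((j' : ℝ) + M * z') + 1 := by linarith
    have l2 : ((j' : ℝ) + M * z') < ((j : ℝ) + M * z) + 1 := by linarith
    have l1' : ((j : ℤ) + M * z) < ((j' : ℤ) + M * z') + 1 := by exact_mod_cast l1
    have l2' : ((j' : ℤ) + M * z') < ((j : ℤ) + M * z) + 1 := by exact_mod_cast l2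
    omega
  have h4 : (j : ℤ) % M = (j' : ℤ) % M := by
    have := congrArg (fun t : ℤ => t % (M : ℤ)) h3
    simpa using this
  rw [Int.emod_eq_of_lt (by positivity) (by exact_mod_cast hj),
    Int.emod_eq_of_lt (by positivity) (by exact_mod_cast hj')] at h4
  exact_mod_cast h4

/-- The set `K` lies in one cell of the `j`-th grid. -/
def Good (M j : ℕ) (K : Set E2) : Prop := ∀ x ∈ K, ∀ y ∈ K, cid M j x = cid M j y

open Classical in
theorem card_bad_le (M : ℕ) (hM : 0 < M) (K : Set E2) (hb : Bornology.IsBounded K)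
    (hd : Metric.diam K ≤ 1) :
    ((Finset.range M).filter (fun j => ¬ Good M j K)).card ≤ 2 := by
  have hsub : (Finset.range M).filter (fun j => ¬ Good M j K) ⊆
      ((Finset.range M).filter (fun j : ℕ => ∃ x ∈ K, ∃ y ∈ K,
        ⌊(x 0 - j) / (M : ℝ)⌋ < ⌊(y 0 - j) / (M : ℝ)⌋)) ∪
      ((Finset.range M).filter (fun j : ℕ => ∃ x ∈ K, ∃ y ∈ K,
        ⌊(x 1 - j) / (M : ℝ)⌋ < ⌊(y 1 - j) / (M : ℝ)⌋)) := by
    intro j hj
    simp only [Finset.mem_filter, Good, not_forall] at hj
    obtain ⟨hjM, x, hx, y, hy, hne⟩ := hj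
    rw [Finset.mem_union, Finset.mem_filter, Finset.mem_filter]
    simp only [cid, Prod.mk.injEq, not_and_or] at hne
    rcases hne with hne | hne
    · left
      refine ⟨hjM, ?_⟩
      rcases lt_or_gt_of_ne hne with h | h
      · exact ⟨x, hx, y, hy, h⟩
      · exact ⟨y, hy, x, hx, h⟩
    · right
      refine ⟨hjM, ?_⟩
      rcases lt_or_gt_of_ne hne with h | h
      · exact ⟨x, hx, y, hy, h⟩
      · exact ⟨y, hy, x, hx, h⟩
  have hone : ∀ e : Fin 2, ((Finset.range M).filter (fun j : ℕ => ∃ x ∈ K, ∃ y ∈ K,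
        ⌊(x e - j) / (M : ℝ)⌋ < ⌊(y e - j) / (M : ℝ)⌋)).card ≤ 1 := by
    intro e
    rw [Finset.card_le_one]
    intro j hj j' hj'
    simp only [Finset.mem_filter, Finset.mem_range] at hj hj'
    obtain ⟨hjM, x, hx, y, hy, h⟩ := hj
    obtain ⟨hjM', x', hx', y', hy', h'⟩ := hj'
    exact bad_coord M hM K hb hd e j j' hjM hjM' x y x' y' hx hy hx' hy' h h'
  calc _ ≤ _ := Finset.card_le_card hsub
    _ ≤ _ := Finset.card_union_le _ _
    _ ≤ 1 + 1 := add_le_add (hone 0) (hone 1)
    _ = 2 := rfl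

open Classical in
/-- Some shift of the grid keeps a fraction `(M - 2) / M` of the area. -/
theorem exists_shift (M : ℕ) (hM : 2 < M) {n : ℕ} (K : Fin n → Set E2)
    (hK : ∀ i, IsCompact (K i) ∧ Metric.diam (K i) ≤ 1) :
    ∃ j : ℕ, ((M : ℝ≥0∞) - 2) * volume (⋃ i, K i) ≤
      M * volume (⋃ i ∈ Finset.univ.filter (fun i => Good M j (K i)), K i) := by
  set W : ℕ → Set E2 := fun j => ⋃ i ∈ Finset.univ.filter (fun i => Good M j (K i)), K i with hW
  have hWm : ∀ j, MeasurableSet (W j) := fun j =>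
    Finset.measurableSet_biUnion _ fun i _ => (hK i).1.measurableSet
  have hUm : MeasurableSet (⋃ i, K i) := MeasurableSet.iUnion fun i => (hK i).1.measurableSet
  have hsum : ((M : ℝ≥0∞) - 2) * volume (⋃ i, K i) ≤ ∑ j ∈ Finset.range M, volume (W j) := by
    calc ((M : ℝ≥0∞) - 2) * volume (⋃ i, K i)
        = ∫⁻ x, (⋃ i, K i).indicator (fun _ => ((M : ℝ≥0∞) - 2)) x := by
          rw [lintegral_indicator hUm, lintegral_const, Measure.restrict_apply_univ]
      _ ≤ ∫⁻ x, ∑ j ∈ Finset.range M, (W j).indicator 1 x := by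
          refine lintegral_mono fun x => ?_
          by_cases hx : x ∈ ⋃ i, K i
          · rw [indicator_of_mem hx]
            obtain ⟨i, hi⟩ := mem_iUnion.mp hx
            have hbad := card_bad_le M (by omega) (K i) (hK i).1.isBounded (hK i).2
            have hsplit := Finset.card_filter_add_card_filter_not (s := Finset.range M)
              (fun j => Good M j (K i))
            rw [Finset.card_range] at hsplit
            have hgood : M - 2 ≤ ((Finset.range M).filter (fun j => Good M j (K i))).card := by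
              omega
            calc ((M : ℝ≥0∞) - 2) = ((M - 2 : ℕ) : ℝ≥0∞) := by
                  rw [ENNReal.natCast_sub]; simp
              _ ≤ (((Finset.range M).filter (fun j => Good M j (K i))).card : ℝ≥0∞) := by
                  exact_mod_cast hgood
              _ = ∑ j ∈ (Finset.range M).filter (fun j => Good M j (K i)), (1 : ℝ≥0∞) := by simp
              _ ≤ ∑ j ∈ (Finset.range M).filter (fun j => Good M j (K i)), (W j).indicator 1 x := by
                  refine Finset.sum_le_sum fun j hj => ?_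
                  have hxW : x ∈ W j := by
                    simp only [hW, mem_iUnion]
                    refine ⟨i, ?_, hi⟩
                    simpa using (Finset.mem_filter.mp hj).2
                  rw [indicator_of_mem hxW]
                  simp
              _ ≤ ∑ j ∈ Finset.range M, (W j).indicator 1 x :=
                  Finset.sum_le_sum_of_subset (Finset.filter_subset _ _)
          · rw [indicator_of_notMem hx]; exact zero_le
      _ = ∑ j ∈ Finset.range M, volume (W j) := by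
          rw [lintegral_finsetSum _ fun j _ => measurable_one.indicator (hWm j)]
          refine Finset.sum_congr rfl fun j _ => ?_
          rw [lintegral_indicator_one (hWm j)]
  obtain ⟨j, hj, hmax⟩ := Finset.exists_max_image (Finset.range M) (fun j => volume (W j))
    ⟨0, by simp; omega⟩
  refine ⟨j, hsum.trans ?_⟩
  calc ∑ j ∈ Finset.range M, volume (W j) ≤ ∑ _i ∈ Finset.range M, volume (W j) :=
        Finset.sum_le_sum hmax
    _ = M * volume (W j) := by simp

/-- Superadditivity of `nu` over the cells of a grid. -/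
theorem sum_nu_le (M j : ℕ) {n : ℕ} (K : Fin n → Set E2) (hne : ∀ i, (K i).Nonempty)
    (C : Finset (ℤ × ℤ)) (J : ℤ × ℤ → Finset (Fin n))
    (hJ : ∀ c ∈ C, ∀ i ∈ J c, ∀ x ∈ K i, cid M j x = c) :
    ∑ c ∈ C, nu K (J c) ≤ nu K Finset.univ := by
  classical
  choose S hSJ hSi hSc using fun c => exists_nu K (J c)
  have hdisj : ∀ c ∈ C, ∀ c' ∈ C, c ≠ c' → Disjoint (S c) (S c') := by
    intro c hc c' hc' hcc
    rw [Finset.disjoint_left]
    intro i hi hi'
    obtain ⟨x, hx⟩ := hne i
    exact hcc ((hJ c hc i (hSJ c hi) x hx).symm.trans (hJ c' hc' i (hSJ c' hi') x hx))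
  have hcard : (C.biUnion S).card = ∑ c ∈ C, nu K (J c) := by
    rw [Finset.card_biUnion hdisj]
    exact Finset.sum_congr rfl fun c _ => hSc c
  rw [← hcard]
  refine card_le_nu (Finset.subset_univ _) ?_
  intro i hi i' hi' hii
  simp only [Finset.coe_biUnion, Finset.mem_coe, mem_iUnion] at hi hi'
  obtain ⟨c, hc, hic⟩ := hi
  obtain ⟨c', hc', hic'⟩ := hi'
  by_cases hcc : c = c'
  · subst hcc
    exact hSi c hic hic' hii
  · rw [Set.disjoint_left]
    intro x hx hx'
    exact hcc ((hJ c hc i (hSJ c hic) x (interior_subset hx)).symm.trans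
      (hJ c' hc' i' (hSJ c' hic') x (interior_subset hx')))

end Pool.Agent.Helper11_Thin
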