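import Mathlib
import Pool.Agent.Helper11_Thin.Grid

set_option autoImplicit false

open Set MeasureTheory Real Filter Topology
open scoped ENNReal

namespace Pool.Agent.Helper11_Thin

theorem dist_corner (M j : ℕ) (hM : 0 < M) (c : ℤ × ℤ) (x : E2) (hx : cid M j x = c) :
    dist x !₂[(j : ℝ) + M * c.1, (j : ℝ) + M * c.2] ≤ 2 * M := by
  have hM' : (0 : ℝ) < M := by exact_mod_cast hM
  have h0 : ⌊(x 0 - j) / (M : ℝ)⌋ = c.1 := by rw [← hx]; rfl
  have h1 : ⌊(x 1 - j) / (M : ℝ)⌋ = c.2 := by rw [← hx]; rfl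
  have a0 := Int.floor_le ((x 0 - j) / (M : ℝ))
  have a1 := Int.lt_floor_add_one ((x 0 - j) / (M : ℝ))
  have b0 := Int.floor_le ((x 1 - j) / (M : ℝ))
  have b1 := Int.lt_floor_add_one ((x 1 - j) / (M : ℝ))
  rw [h0, le_div_iff₀ hM'] at a0
  rw [h0, div_lt_iff₀ hM'] at a1
  rw [h1, le_div_iff₀ hM'] at b0
  rw [h1, div_lt_iff₀ hM'] at b1
  rw [EuclideanSpace.dist_eq, Real.sqrt_le_left (by positivity), Fin.sum_univ_two, Real.dist_eq,
    Real.dist_eq, sq_abs, sq_abs]
  simp only [Matrix.cons_val_zero, Matrix.cons_val_one]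
  have e0 : 0 ≤ x 0 - (j + M * c.1) := by linarith
  have e0' : x 0 - (j + M * c.1) ≤ M := by nlinarith
  have e1 : 0 ≤ x 1 - (j + M * c.2) := by linarith
  have e1' : x 1 - (j + M * c.2) ≤ M := by nlinarith
  nlinarith

/-- Thin families of diameter one: area of the union at most `(π + ε) ν`. -/
theorem thin_core (ε : ℝ) (hε : 0 < ε) :
    ∃ η > 0, ∀ (n : ℕ) (K : Fin n → Set E2),
      (∀ i, Convex ℝ (K i) ∧ IsCompact (K i) ∧ (K i).Nonempty ∧ Metric.diam (K i) = 1 ∧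
        volume (K i) ≤ ENNReal.ofReal η) →
      volume (⋃ i, K i) ≤ ENNReal.ofReal ((π + ε) * nu K Finset.univ) := by
  classical
  -- choose the mesh and the accuracy
  obtain ⟨M, hM2, hMε⟩ : ∃ M : ℕ, 2 < M ∧ (M : ℝ) * (π + ε / 2) ≤ ((M : ℝ) - 2) * (π + ε) := by
    obtain ⟨M, hM⟩ := exists_nat_ge (max 3 (2 * (π + ε) / (ε / 2)))
    have h3 : (3 : ℝ) ≤ M := (le_max_left _ _).trans hM
    have h4 : 2 * (π + ε) / (ε / 2) ≤ M := (le_max_right _ _).trans hM
    rw [div_le_iff₀ (by positivity)] at h4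
    refine ⟨M, by exact_mod_cast (lt_of_lt_of_le (by norm_num) h3 : (2 : ℝ) < M), ?_⟩
    nlinarith
  obtain ⟨η, hη, hcell⟩ := cell (2 * M) (ε / 2) (by positivity)
  refine ⟨η, hη, fun n K hK => ?_⟩
  have hM0 : 0 < M := by omega
  have hM0' : (0 : ℝ) < M := by exact_mod_cast hM0
  have hM2' : (2 : ℝ) < M := by exact_mod_cast hM2
  obtain ⟨j, hj⟩ := exists_shift M hM2 K (fun i => ⟨(hK i).2.1, (hK i).2.2.2.1.le⟩)
  set J : ℤ × ℤ → Finset (Fin n) := fun c =>
    Finset.univ.filter (fun i => ∀ x ∈ K i, cid M j x = c) with hJ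
  choose pt hpt using fun i => (hK i).2.2.1
  set C : Finset (ℤ × ℤ) := (Finset.univ.filter (fun i => Good M j (K i))).image
    (fun i => cid M j (pt i)) with hC
  have hcov : (⋃ i ∈ Finset.univ.filter (fun i => Good M j (K i)), K i) ⊆
      ⋃ c ∈ C, ⋃ i ∈ J c, K i := by
    intro x hx
    simp only [mem_iUnion, exists_prop] at hx
    obtain ⟨i, hi, hxi⟩ := hx
    have hig : Good M j (K i) := (Finset.mem_filter.mp hi).2
    simp only [mem_iUnion]
    refine ⟨cid M j (pt i), ?_, i, ?_, hxi⟩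
    · rw [hC]; exact Finset.mem_image_of_mem _ hi
    · simp only [hJ, Finset.mem_filter, Finset.mem_univ, true_and]
      exact fun y hy => hig y hy (pt i) (hpt i)
  have hcellb : ∀ c ∈ C, volume (⋃ i ∈ J c, K i) ≤ ENNReal.ofReal ((π + ε / 2) * nu K (J c)) := by
    intro c _
    refine hcell n K (J c) !₂[(j : ℝ) + M * c.1, (j : ℝ) + M * c.2] fun i hi => ?_
    obtain ⟨h1, h2, h3, h4, h5⟩ := hK i
    refine ⟨h1, h2, h3, h4, h5, fun x hx => ?_⟩
    simp only [hJ, Finset.mem_filter, Finset.mem_univ, true_and] at hi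
    exact Metric.mem_closedBall.mpr (dist_corner M j hM0 c x (hi x hx))
  have hsum : volume (⋃ i ∈ Finset.univ.filter (fun i => Good M j (K i)), K i) ≤
      ENNReal.ofReal ((π + ε / 2) * nu K Finset.univ) := by
    calc _ ≤ volume (⋃ c ∈ C, ⋃ i ∈ J c, K i) := measure_mono hcov
      _ ≤ ∑ c ∈ C, volume (⋃ i ∈ J c, K i) := measure_biUnion_finset_le _ _
      _ ≤ ∑ c ∈ C, ENNReal.ofReal ((π + ε / 2) * nu K (J c)) := Finset.sum_le_sum hcellb
      _ = ENNReal.ofReal (∑ c ∈ C, (π + ε / 2) * nu K (J c)) := by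
          rw [ENNReal.ofReal_sum_of_nonneg fun c _ => by positivity]
      _ = ENNReal.ofReal ((π + ε / 2) * ((∑ c ∈ C, nu K (J c) : ℕ) : ℝ)) := by
          rw [← Finset.mul_sum]; push_cast; rfl
      _ ≤ ENNReal.ofReal ((π + ε / 2) * nu K Finset.univ) := by
          refine ENNReal.ofReal_le_ofReal ?_
          have := sum_nu_le M j K (fun i => (hK i).2.2.1) C J (by
            intro c _ i hi
            simpa only [hJ, Finset.mem_filter, Finset.mem_univ, true_and] using hi)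
          have h' : ((∑ c ∈ C, nu K (J c) : ℕ) : ℝ) ≤ nu K Finset.univ := by exact_mod_cast this
          gcongr
  have hfin : volume (⋃ i, K i) ≠ ∞ := (isCompact_iUnion fun i => (hK i).2.1).measure_lt_top.ne
  have h1 := hj.trans (mul_le_mul_right hsum _)
  have h2 : ((M : ℝ≥0∞) - 2) = ENNReal.ofReal ((M : ℝ) - 2) := by
    rw [ENNReal.ofReal_sub _ (by norm_num)]
    simp
  have h3 : (M : ℝ≥0∞) = ENNReal.ofReal M := by simp
  rw [h2] at h1
  rw [h3] at h1
  rw [← ENNReal.ofReal_toReal hfin, ← ENNReal.ofReal_mul (by linarith),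
    ← ENNReal.ofReal_mul (by positivity), ENNReal.ofReal_le_ofReal_iff (by positivity)] at h1
  rw [← ENNReal.ofReal_toReal hfin]
  refine ENNReal.ofReal_le_ofReal ?_
  have h4 : (0 : ℝ) ≤ nu K Finset.univ := by positivity
  have h5 : ((M : ℝ) - 2) * (volume (⋃ i, K i)).toReal ≤ ((M : ℝ) - 2) * ((π + ε) * nu K Finset.univ) := by
    nlinarith
  exact le_of_mul_le_mul_left h5 (by linarith)

end Pool.Agent.Helper11_Thin
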